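import Pool.Agent.X79.EC.Stm
import Pool.Agent.H168DD.TB

/-!
# Part TB of the project EC of helper79 (MP_2a9600_co): edge covers with at most `m / 2` edges
-/

set_option autoImplicit false

namespace Pool.Agent.X142.EC

open Finset
open Pool.Agent.X79.EC

section

variable {V : Type} [Fintype V] [DecidableEq V] (G : SimpleGraph V) [DecidableRel G.Adj]

/-- the edges touching `W` -/
def tch (W : Finset V) : Finset (Sym2 V) := G.edgeFinset.filter (fun e => ∃ v ∈ W, v ∈ e)

lemma deg_eq (v : V) : G.degree v = (G.edgeFinset.filter (fun e => v ∈ e)).card := by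
  rw [← G.card_incidenceFinset_eq_degree, G.incidenceFinset_eq_filter]

lemma sum_deg (W : Finset V) :
    ∑ v ∈ W, G.degree v = ∑ e ∈ tch G W, (W.filter (fun v => v ∈ e)).card := by
  have h1 : ∑ v ∈ W, G.degree v = ∑ v ∈ W, ∑ e ∈ G.edgeFinset, if v ∈ e then 1 else 0 := by
    refine sum_congr rfl (fun v _ => ?_)
    rw [deg_eq, card_filter]
  have h2 : ∑ e ∈ tch G W, (W.filter (fun v => v ∈ e)).card =
      ∑ e ∈ G.edgeFinset, (W.filter (fun v => v ∈ e)).card := by
    apply sum_subset (filter_subset _ _)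
    intro e he hn
    rw [card_eq_zero, filter_eq_empty_iff]
    intro v hv hve
    exact hn (mem_filter.2 ⟨he, v, hv, hve⟩)
  rw [h1, h2, sum_comm]
  refine sum_congr rfl (fun e _ => ?_)
  rw [card_filter]

omit [Fintype V] in
lemma fib_sub (W : Finset V) (a b : V) : (W.filter (fun v => v ∈ s(a, b))) ⊆ {a, b} := by
  intro v hv
  have h := (mem_filter.1 hv).2
  rw [Sym2.mem_iff] at h
  simpa using h

omit [Fintype V] in
lemma fib_le (W : Finset V) (e : Sym2 V) : (W.filter (fun v => v ∈ e)).card ≤ 2 := by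
  induction e using Sym2.ind with
  | _ a b => exact (card_le_card (fib_sub W a b)).trans card_le_two

variable {G} in
lemma two_mul_le (h2 : ∀ v, 2 ≤ G.degree v) (W : Finset V) :
    2 * W.card ≤ ∑ v ∈ W, G.degree v := by
  calc 2 * W.card = ∑ v ∈ W, 2 := by rw [sum_const, smul_eq_mul, mul_comm]
    _ ≤ _ := sum_le_sum (fun v _ => h2 v)

lemma fib_sum_le (W : Finset V) :
    ∑ e ∈ tch G W, (W.filter (fun v => v ∈ e)).card ≤ 2 * (tch G W).card := by
  calc _ ≤ ∑ e ∈ tch G W, 2 := sum_le_sum (fun e _ => fib_le W e)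
    _ = _ := by rw [sum_const, smul_eq_mul, mul_comm]

variable {G}

lemma tch_ge (h2 : ∀ v, 2 ≤ G.degree v) (W : Finset V) : W.card ≤ (tch G W).card := by
  have h := sum_deg G W
  have h3 := two_mul_le h2 W
  have h4 := fib_sum_le G W
  omega

lemma tch_odd (h2 : ∀ v, 2 ≤ G.degree v)
    (hO : ∀ O : Finset V, Odd O.card → (∀ x ∈ O, ∀ y, G.Adj x y → y ∈ O) →
      ∃ x ∈ O, G.degree x ≠ 2) (W : Finset V) (hW : Odd W.card) :
    W.card + 1 ≤ (tch G W).card := by
  by_contra hc
  have h0 := tch_ge h2 W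
  have h := sum_deg G W
  have h3 := two_mul_le h2 W
  have h4 := fib_sum_le G W
  have hd : ∀ v ∈ W, 2 = G.degree v := by
    rw [← sum_eq_sum_iff_of_le (fun v _ => h2 v), sum_const, smul_eq_mul]
    omega
  have hf : ∀ e ∈ tch G W, (W.filter (fun v => v ∈ e)).card = 2 := by
    rw [← sum_eq_sum_iff_of_le (fun e _ => fib_le W e), sum_const, smul_eq_mul]
    omega
  obtain ⟨x, hx, hx2⟩ := hO W hW (by
    intro x hx y hxy
    have he : s(x, y) ∈ tch G W := mem_filter.2 ⟨SimpleGraph.mem_edgeFinset.2 hxy, x, hx, by simp⟩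
    have h5 := hf _ he
    have h6 : W.filter (fun v => v ∈ s(x, y)) = {x, y} :=
      eq_of_subset_of_card_le (fib_sub W x y) (by rw [h5]; exact card_le_two)
    have h7 : y ∈ W.filter (fun v => v ∈ s(x, y)) := by rw [h6]; simp
    exact (mem_filter.1 h7).1)
  exact hx2 (hd x hx).symm

/-- counting all edges -/
lemma total (h2 : ∀ v, 2 ≤ G.degree v)
    (hO : ∀ O : Finset V, Odd O.card → (∀ x ∈ O, ∀ y, G.Adj x y → y ∈ O) →
      ∃ x ∈ O, G.degree x ≠ 2) (A : Finset V) (F : Finset (Finset V))
    (hodd : ∀ O ∈ F, Odd O.card) (hdis : ∀ O ∈ F, ∀ O' ∈ F, O ≠ O' → Disjoint O O')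
    (hA : ∀ O ∈ F, O ⊆ univ \ A)
    (hcl : ∀ O ∈ F, ∀ x ∈ O, ∀ y ∈ (univ : Finset V), G.Adj x y → y ∈ O ∨ y ∈ A) :
    ∃ r s : ℕ, Fintype.card V = A.card + s + r ∧ s + F.card + r ≤ G.edgeFinset.card ∧
      (Odd r → s + F.card + r + 1 ≤ G.edgeFinset.card) ∧ ∃ k, s = F.card + 2 * k := by
  classical
  set B : Finset V := F.biUnion id with hB
  set R : Finset V := univ \ (A ∪ B) with hR
  have hBc : B.card = ∑ O ∈ F, O.card := by
    rw [hB, card_biUnion]
    · rfl
    · intro O hO' O' hO'' hne
      exact hdis O hO' O' hO'' hne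
  have hAB : Disjoint A B := by
    rw [disjoint_left]
    intro v hvA hvB
    rw [hB, mem_biUnion] at hvB
    obtain ⟨O, hOF, hvO⟩ := hvB
    exact (mem_sdiff.1 (hA O hOF hvO)).2 hvA
  have hn : Fintype.card V = A.card + B.card + R.card := by
    have h1 : R.card + (A ∪ B).card = (univ : Finset V).card :=
      card_sdiff_add_card_eq_card (subset_univ _)
    rw [card_union_of_disjoint hAB, card_univ] at h1
    omega
  -- the touching sets
  have hnb : ∀ O ∈ F, ∀ e ∈ tch G O, ∀ v ∈ e, v ∈ O ∨ v ∈ A := by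
    intro O hOF e he v hv
    obtain ⟨he1, x, hx, hxe⟩ := mem_filter.1 he
    induction e using Sym2.ind with
    | _ a b =>
      have hadj : G.Adj a b := SimpleGraph.mem_edgeFinset.1 he1
      rw [Sym2.mem_iff] at hxe hv
      rcases hxe with rfl | rfl <;> rcases hv with rfl | rfl
      · exact Or.inl hx
      · exact hcl O hOF _ hx _ (mem_univ _) hadj
      · exact hcl O hOF _ hx _ (mem_univ _) hadj.symm
      · exact Or.inl hx
  have hd1 : ∀ O ∈ F, ∀ O' ∈ F, O ≠ O' → Disjoint (tch G O) (tch G O') := by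
    intro O hO' O' hO'' hne
    rw [disjoint_left]
    intro e he he'
    obtain ⟨_, x, hx, hxe⟩ := mem_filter.1 he'
    rcases hnb O hO' e he x hxe with h | h
    · exact (disjoint_left.1 (hdis O hO' O' hO'' hne)) h hx
    · exact (mem_sdiff.1 (hA O' hO'' hx)).2 h
  have hd2 : Disjoint (F.biUnion (tch G)) (tch G R) := by
    rw [disjoint_left]
    intro e he he'
    rw [mem_biUnion] at he
    obtain ⟨O, hOF, heO⟩ := he
    obtain ⟨_, x, hx, hxe⟩ := mem_filter.1 he'
    have hxR := (mem_sdiff.1 hx).2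
    rcases hnb O hOF e heO x hxe with h | h
    · exact hxR (mem_union_right _ (mem_biUnion.2 ⟨O, hOF, h⟩))
    · exact hxR (mem_union_left _ h)
  have hsum : ∑ O ∈ F, (tch G O).card + (tch G R).card ≤ G.edgeFinset.card := by
    have h1 : (F.biUnion (tch G)).card = ∑ O ∈ F, (tch G O).card := by
      rw [card_biUnion]
      intro O hO' O' hO'' hne
      exact hd1 O hO' O' hO'' hne
    rw [← h1, ← card_union_of_disjoint hd2]
    apply card_le_card
    apply union_subset
    · rw [biUnion_subset]
      intro O _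
      exact filter_subset _ _
    · exact filter_subset _ _
  have hge : ∑ O ∈ F, O.card + F.card ≤ ∑ O ∈ F, (tch G O).card := by
    have h1 : ∑ O ∈ F, (O.card + 1) ≤ ∑ O ∈ F, (tch G O).card :=
      sum_le_sum (fun O hOF => tch_odd h2 hO O (hodd O hOF))
    rw [sum_add_distrib, sum_const, smul_eq_mul, mul_one] at h1
    exact h1
  refine ⟨R.card, B.card, hn, ?_, ?_, ?_⟩
  · have := tch_ge h2 R
    omega
  · intro hr
    have := tch_odd h2 hO R hr
    omega
  · refine ⟨∑ O ∈ F, O.card / 2, ?_⟩
    rw [hBc, mul_sum, card_eq_sum_ones, ← sum_add_distrib]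
    refine sum_congr rfl (fun O hOF => ?_)
    obtain ⟨k, hk⟩ := hodd O hOF
    omega

end

/-- **TB** -/
theorem t_TB : S_TB := by
  intro V _ _ G _ h2 hO
  classical
  have hm : Fintype.card V ≤ G.edgeFinset.card := by
    have h1 := tch_ge h2 (univ : Finset V)
    rw [card_univ] at h1
    exact h1.trans (card_le_card (filter_subset _ _))
  have hm1 : Odd (Fintype.card V) → Fintype.card V + 1 ≤ G.edgeFinset.card := by
    intro ho
    have h1 := tch_odd h2 hO (univ : Finset V) (by rw [card_univ]; exact ho)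
    rw [card_univ] at h1
    exact h1.trans (card_le_card (filter_subset _ _))
  obtain ⟨l, hl1, hl2, hl3⟩ : ∃ l, Fintype.card V + l ≤ G.edgeFinset.card ∧
      Even (Fintype.card V + l) ∧ G.edgeFinset.card ≤ Fintype.card V + l + 1 := by
    rcases Nat.even_or_odd G.edgeFinset.card with he | ho
    · refine ⟨G.edgeFinset.card - Fintype.card V, by omega, ?_, by omega⟩
      have : Fintype.card V + (G.edgeFinset.card - Fintype.card V) = G.edgeFinset.card := by omega
      rw [this]
      exact he
    · have h1 : Fintype.card V + 1 ≤ G.edgeFinset.card := by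
        by_contra hc
        have h3 : G.edgeFinset.card = Fintype.card V := by omega
        rw [h3] at ho
        have := hm1 ho
        omega
      refine ⟨G.edgeFinset.card - Fintype.card V - 1, by omega, ?_, by omega⟩
      obtain ⟨k, hk⟩ := ho
      refine ⟨k, by omega⟩
  obtain ⟨U, μ, -, hUl, hμ⟩ := H168DD.tutte_berge G univ l (by rw [card_univ]; exact hl2) (by
    intro A F _ hodd hdis hA hcl
    obtain ⟨r, s, h1, h3, h4, k, h5⟩ := total h2 hO A F hodd hdis hA hcl
    by_contra hc
    obtain ⟨j, hj⟩ := hl2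
    rcases Nat.even_or_odd r with ⟨i, hi⟩ | hr
    · omega
    · have := h4 hr
      omega)
  -- an edge at each vertex
  have hnb : ∀ v : V, ∃ w, G.Adj v w := by
    intro v
    have : 0 < G.degree v := lt_of_lt_of_le two_pos (h2 v)
    exact (G.degree_pos_iff_exists_adj v).1 this
  choose nb hnb using hnb
  refine ⟨(univ \ U).image (fun x => s(x, μ x)) ∪ U.image (fun x => s(x, nb x)), ?_, ?_, ?_⟩
  · apply union_subset
    · intro e he
      obtain ⟨x, hx, rfl⟩ := mem_image.1 he
      exact SimpleGraph.mem_edgeFinset.2 (hμ x hx).2.2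
    · intro e he
      obtain ⟨x, hx, rfl⟩ := mem_image.1 he
      exact SimpleGraph.mem_edgeFinset.2 (hnb x)
  · intro v
    by_cases hv : v ∈ U
    · exact ⟨s(v, nb v), mem_union_right _ (mem_image.2 ⟨v, hv, rfl⟩), by simp⟩
    · exact ⟨s(v, μ v), mem_union_left _ (mem_image.2 ⟨v, by simp [hv], rfl⟩), by simp⟩
  · have h1 : 2 * ((univ \ U).image (fun x => s(x, μ x))).card ≤ (univ \ U).card := by
      apply mul_card_image_le_card
      intro e he
      obtain ⟨x, hx, rfl⟩ := mem_image.1 he
      obtain ⟨h3, h4, h5⟩ := hμ x hx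
      have h6 : ({x, μ x} : Finset V) ⊆ (univ \ U).filter (fun y => s(y, μ y) = s(x, μ x)) := by
        intro y hy
        rw [mem_insert, mem_singleton] at hy
        rcases hy with rfl | rfl
        · exact mem_filter.2 ⟨hx, rfl⟩
        · refine mem_filter.2 ⟨h3, ?_⟩
          rw [h4, Sym2.eq_swap]
      have h7 : ({x, μ x} : Finset V).card = 2 := card_pair h5.ne
      rw [← h7]
      exact card_le_card h6
    have h8 : (univ \ U).card + U.card = Fintype.card V := by
      rw [card_sdiff_add_card_eq_card (subset_univ _), card_univ]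
    have h9 : (U.image (fun x => s(x, nb x))).card ≤ U.card := card_image_le
    have h10 := card_union_le ((univ \ U).image (fun x => s(x, μ x)))
      (U.image (fun x => s(x, nb x)))
    omega

end Pool.Agent.X142.EC
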